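import Pool.Agent.MWGI.Defs
import Pool.Agent.Helper96_MWV.Ind
import Pool.Agent.Helper48_MWHP.Bridge

/-!
# Two letter families with one light letter (MP_23468a_al, squad MWGI)

`cf i p u v c`: block `i` is `0^u 1 0^v`, block `p` is `1`, block `j` is `0^(c j)` otherwise;
`cg i p u v c r s`: block `p` is `0^r 1 0^s`.
-/

set_option autoImplicit false

namespace Pool.Agent.MWGI.H61

open Pool.Agent.Helper14_MV Pool.Agent.Helper2_MV Pool.Agent.MVO Pool.Agent.MWL Pool.Agent.MWS
  Pool.Agent.MWH Pool.Agent.MWGI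

/-- the family -/
def cf (i p u v : ℕ) (c : ℕ → ℕ) : ℕ → List ℕ := fun j =>
  if j = i then X u ++ 1 :: X v else if j = p then [1] else X (c j)

/-- the family with `0` in block `p` -/
def cg (i p u v : ℕ) (c : ℕ → ℕ) (r s : ℕ) : ℕ → List ℕ := fun j =>
  if j = i then X u ++ 1 :: X v else if j = p then X r ++ 1 :: X s else X (c j)

theorem ns0 (k : ℕ) : NS k 0 := fun h => by omega
theorem ns1 (k : ℕ) : NS k 1 := fun h => by omega

theorem ns01 {k c : ℕ} (h : c = 0 ∨ c = 1) : NS k c := by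
  rcases h with rfl | rfl
  · exact ns0 k
  · exact ns1 k

theorem mem_X {u c : ℕ} (h : c ∈ X u) : c = 0 := List.eq_of_mem_replicate h

theorem mem_m {u v c : ℕ} (h : c ∈ X u ++ 1 :: X v) : c = 0 ∨ c = 1 := by
  rcases List.mem_append.1 h with h | h
  · exact Or.inl (mem_X h)
  · rcases List.mem_cons.1 h with h | h
    · exact Or.inr h
    · exact Or.inl (mem_X h)

theorem cg01 (i p u v : ℕ) (c : ℕ → ℕ) (r s : ℕ) (j : ℕ) : ∀ a ∈ cg i p u v c r s j, a = 0 ∨ a = 1 := by
  intro a ha
  unfold cg at ha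
  split_ifs at ha
  · exact mem_m ha
  · exact mem_m ha
  · exact Or.inl (mem_X ha)

theorem cf_cg (i p u v : ℕ) (c : ℕ → ℕ) : cf i p u v c = cg i p u v c 0 0 := rfl

theorem bo_cg (k i p u v : ℕ) (c : ℕ → ℕ) (r s : ℕ) : BlkOk k (cg i p u v c r s) :=
  fun j _ a ha => ns01 (cg01 i p u v c r s j a ha)

theorem bo_cf (k i p u v : ℕ) (c : ℕ → ℕ) : BlkOk k (cf i p u v c) := bo_cg k i p u v c 0 0

theorem Xadd (a b : ℕ) : X a ++ X b = X (a + b) := List.replicate_append_replicate ..

theorem Xadd' (a b : ℕ) (w : List ℕ) : X a ++ (X b ++ w) = X (a + b) ++ w := by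
  rw [← List.append_assoc, Xadd]

theorem blk_ins (s u v t : ℕ) : X s ++ (X u ++ 1 :: X v) ++ X t = X (u + s) ++ 1 :: X (v + t) := by
  rw [List.append_assoc, List.append_assoc, Xadd', List.cons_append, Xadd, Nat.add_comm s u]

/-- insertion -/
theorem ins {θ : FIC} {k i p u v u' v' r s : ℕ} {c c' : ℕ → ℕ}
    (h : RR θ (asm k (cf i p u v c)) (asm k (cg i p u' v' c' r s))) (a b : ℕ) (e : ℕ → ℕ) :
    RR θ (asm k (cf i p (u + a) (v + b) (fun j => c j + e j)))
      (asm k (cg i p (u' + a) (v' + b) (fun j => c' j + e j) r s)) := by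
  have h1 := rr_ins' θ (fun j => if j = i then X a else [])
    (fun j => if j = i then X b else if j = p then [] else X (e j)) (bo_cf k i p u v c)
    (bo_cg k i p u' v' c' r s) h
  have e1 : ∀ j ≤ k, (if j = i then X a else []) ++ cf i p u v c j ++
      (if j = i then X b else if j = p then [] else X (e j)) =
        cf i p (u + a) (v + b) (fun j => c j + e j) j := by
    intro j _
    unfold cf
    by_cases h1 : j = i
    · rw [if_pos h1, if_pos h1, if_pos h1, if_pos h1, blk_ins]
    · rw [if_neg h1, if_neg h1, if_neg h1, if_neg h1]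
      by_cases h2 : j = p
      · rw [if_pos h2, if_pos h2, if_pos h2]; rfl
      · rw [if_neg h2, if_neg h2, if_neg h2, List.nil_append, Xadd]
  have e2 : ∀ j ≤ k, (if j = i then X a else []) ++ cg i p u' v' c' r s j ++
      (if j = i then X b else if j = p then [] else X (e j)) =
        cg i p (u' + a) (v' + b) (fun j => c' j + e j) r s j := by
    intro j _
    unfold cg
    by_cases h1 : j = i
    · rw [if_pos h1, if_pos h1, if_pos h1, if_pos h1, blk_ins]
    · rw [if_neg h1, if_neg h1, if_neg h1, if_neg h1]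
      by_cases h2 : j = p
      · rw [if_pos h2, if_pos h2, if_pos h2, List.nil_append, List.append_nil]
      · rw [if_neg h2, if_neg h2, if_neg h2, List.nil_append, Xadd]
  rw [asm_congr e1, asm_congr e2] at h1
  exact h1

theorem Xflat (a : ℕ) : (X a).flatMap (fun c => if c = 1 then ([] : List ℕ) else [c]) = X a := by
  induction a with
  | zero => rfl
  | succ a ih =>
    have e : X (a + 1) = 0 :: X a := rfl
    rw [e, List.flatMap_cons, ih]
    rfl

/-- the position of `1` is forgotten -/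
theorem del {θ : FIC} {k i p u v u' v' : ℕ} {c c' : ℕ → ℕ} (hip : i ≠ p)
    (h : RR θ (asm k (cf i p u v c)) (asm k (cf i p u' v' c'))) (a : ℕ) :
    RR θ (asm k (cf i p a (u + v) c)) (asm k (cf i p a (u' + v') c')) := by
  have h1 := rr_sub θ (fun c => if c = 1 then ([] : List ℕ) else [c]) (bo_cf k i p u v c)
    (bo_cf k i p u' v' c') h
  have hb : ∀ (u v : ℕ) (c : ℕ → ℕ), BlkOk k (fun j => (cf i p u v c j).flatMap
      (fun c => if c = 1 then ([] : List ℕ) else [c])) := by
    intro u v c j hj a ha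
    rw [List.mem_flatMap] at ha
    obtain ⟨b, hb, ha⟩ := ha
    by_cases h1 : b = 1
    · rw [if_pos h1] at ha
      exact absurd ha List.not_mem_nil
    · rw [if_neg h1, List.mem_singleton] at ha
      rw [ha]
      exact bo_cf k i p u v c j hj b hb
  have h2 := rr_ins' θ (fun j => if j = i then X a ++ [1] else if j = p then [1] else [])
    (fun _ => []) (hb u v c) (hb u' v' c') h1
  have e1 : ∀ (u v : ℕ) (c : ℕ → ℕ), ∀ j ≤ k,
      (if j = i then X a ++ [1] else if j = p then [1] else []) ++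
        (cf i p u v c j).flatMap (fun c => if c = 1 then ([] : List ℕ) else [c]) ++ [] =
      cf i p a (u + v) c j := by
    intro u v c j _
    unfold cf
    rw [List.append_nil]
    by_cases h1 : j = i
    · rw [if_pos h1, if_pos h1, if_pos h1, List.flatMap_append, List.flatMap_cons, Xflat, Xflat]
      change X a ++ [1] ++ (X u ++ ([] ++ X v)) = X a ++ 1 :: X (u + v)
      rw [List.nil_append, Xadd, List.append_assoc]
      rfl
    · rw [if_neg h1, if_neg h1, if_neg h1]
      by_cases h2 : j = p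
      · rw [if_pos h2, if_pos h2]
        rfl
      · rw [if_neg h2, if_neg h2, Xflat]
        rfl
  rw [asm_congr (e1 u v c), asm_congr (e1 u' v' c')] at h2
  exact h2

/-- related blocks -/
theorem asm_rr {θ : FIC} {k : ℕ} {B B' : ℕ → List ℕ} (h : ∀ j ≤ k, RR θ (B j) (B' j)) :
    RR θ (asm k B) (asm k B') := by
  induction k with
  | zero => exact h 0 le_rfl
  | succ k ih =>
    have h1 := ih (fun j hj => h j (by omega))
    have h2 : RR θ ((k + 2) :: B (k + 1)) ((k + 2) :: B' (k + 1)) :=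
      (RR.refl [k + 2]).append (h (k + 1) le_rfl)
    exact h1.append h2

/-- powers with exponents `≥ 2` -/
theorem xx {θ : FIC} {n : ℕ} (hp : MWZ.Per n (RR θ)) {a b : ℕ} (ha : 2 ≤ a) (hb : 2 ≤ b)
    (h : a ≡ b [MOD n]) : RR θ (X a) (X b) := by
  have h0 : RR θ [0, 0] (List.replicate (n + 2) 0) := hp
  rcases Nat.le_total a b with hab | hab
  · obtain ⟨t, ht⟩ := (Nat.modEq_iff_dvd' hab).1 h
    obtain rfl : b = a + t * n := by rw [Nat.mul_comm] at ht; omega
    exact Helper96_MWV.pwk h0 0 a t ha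
  · obtain ⟨t, ht⟩ := (Nat.modEq_iff_dvd' hab).1 h.symm
    obtain rfl : a = b + t * n := by rw [Nat.mul_comm] at ht; omega
    exact RR.symm (Helper96_MWV.pwk h0 0 b t hb)

/-- exponents `≥ 2` may be changed mod `n` -/
theorem exc {θ : FIC} {n : ℕ} (hp : MWZ.Per n (RR θ)) {k i p u v u1 v1 r s : ℕ} {c c1 : ℕ → ℕ}
    (hu : 2 ≤ u) (hu1 : 2 ≤ u1) (hv : 2 ≤ v) (hv1 : 2 ≤ v1) (hc : ∀ j, 2 ≤ c j)
    (hc1 : ∀ j, 2 ≤ c1 j) (eu : u ≡ u1 [MOD n]) (ev : v ≡ v1 [MOD n])
    (ec : ∀ j, c j ≡ c1 j [MOD n]) :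
    RR θ (asm k (cg i p u v c r s)) (asm k (cg i p u1 v1 c1 r s)) := by
  apply asm_rr
  intro j _
  unfold cg
  by_cases h1 : j = i
  · rw [if_pos h1, if_pos h1]
    exact (xx hp hu hu1 eu).append ((RR.refl [1]).append (xx hp hv hv1 ev))
  · rw [if_neg h1, if_neg h1]
    by_cases h2 : j = p
    · rw [if_pos h2, if_pos h2]
      exact RR.refl _
    · rw [if_neg h2, if_neg h2]
      exact xx hp (hc j) (hc1 j) (ec j)

theorem mod_a (n a b : ℕ) (hn : 1 ≤ n) : a + (b + (n - 1) * a) ≡ b [MOD n] := by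
  have e : a + (b + (n - 1) * a) = b + n * a := by
    obtain ⟨m, rfl⟩ : ∃ m, n = m + 1 := ⟨n - 1, by omega⟩
    rw [Nat.add_sub_cancel]
    ring
  rw [e]
  unfold Nat.ModEq
  rw [Nat.add_mul_mod_self_left]

theorem wz_cf (n i p u v : ℕ) : wz n i p Za u v = cf i p u v (fun _ => 2 * n) := by
  funext j
  unfold wz cf Za
  by_cases h1 : j = i
  · rw [if_pos h1, if_pos h1]
  · rw [if_neg h1, if_neg h1]
    by_cases h2 : j = p
    · rw [if_pos h2, if_pos h2]
    · rw [if_neg h2, if_neg h2, if_pos rfl]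

/-- **the label**: the difference of the labels crosses -/
theorem lab {θ : FIC} {n : ℕ} (hn : 1 ≤ n) (hp : MWZ.Per n (RR θ)) {k i p u v u' v' : ℕ}
    {c c' : ℕ → ℕ} (hip : i ≠ p) (h : RR θ (asm k (cf i p u v c)) (asm k (cf i p u' v' c'))) :
    Dz n k i p (u + (n - 1) * u') Za (RR θ) := by
  unfold Dz Wz
  rw [wz_cf, wz_cf]
  -- the main relation
  have m1 := ins (r := 0) (s := 0) h (2 * n + (n - 1) * u') (2 * n + (n - 1) * v)
    (fun j => 2 * n + (n - 1) * c j)
  -- the position of `1` is the same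
  have m2 := ins (r := 0) (s := 0) (del hip h (u' + (2 * n + (n - 1) * u'))) 0
    (2 * n + (n - 1) * v + (n - 1) * u') (fun j => 2 * n + (n - 1) * c j)
  have x1 : RR θ (asm k (cg i p (u' + (2 * n + (n - 1) * u') + 0)
      (u' + v' + (2 * n + (n - 1) * v + (n - 1) * u')) (fun j => c' j + (2 * n + (n - 1) * c j))
        0 0))
      (asm k (cg i p (u' + (2 * n + (n - 1) * u')) (v' + (2 * n + (n - 1) * v))
        (fun j => c' j + (2 * n + (n - 1) * c j)) 0 0)) := by
    refine exc hp (by omega) (by omega) (by omega) (by omega) (fun j => by omega)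
      (fun j => by omega) (by rw [Nat.add_zero]) ?_ (fun j => Nat.ModEq.refl _)
    have e : u' + v' + (2 * n + (n - 1) * v + (n - 1) * u') =
        u' + (v' + (2 * n + (n - 1) * v) + (n - 1) * u') := by omega
    rw [e]
    exact mod_a n u' _ hn
  have x2 : RR θ (asm k (cg i p (u + (2 * n + (n - 1) * u')) (v + (2 * n + (n - 1) * v))
      (fun j => c j + (2 * n + (n - 1) * c j)) 0 0))
      (asm k (cg i p (2 * n + (u + (n - 1) * u')) (2 * n) (fun _ => 2 * n) 0 0)) := by
    refine exc hp (by omega) (by omega) (by omega) (by omega) (fun j => by omega)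
      (fun j => by omega) ?_ (mod_a n v _ hn) (fun j => mod_a n (c j) _ hn)
    have e : u + (2 * n + (n - 1) * u') = 2 * n + (u + (n - 1) * u') := by omega
    rw [e]
  have x3 : RR θ (asm k (cg i p (u' + (2 * n + (n - 1) * u') + 0)
      (u + v + (2 * n + (n - 1) * v + (n - 1) * u')) (fun j => c j + (2 * n + (n - 1) * c j))
        0 0))
      (asm k (cg i p (2 * n) (2 * n + (u + (n - 1) * u')) (fun _ => 2 * n) 0 0)) := by
    refine exc hp (by omega) (by omega) (by omega) (by omega) (fun j => by omega)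
      (fun j => by omega) ?_ ?_ (fun j => mod_a n (c j) _ hn)
    · rw [Nat.add_zero]
      exact mod_a n u' _ hn
    · have e : u + v + (2 * n + (n - 1) * v + (n - 1) * u') =
          v + ((2 * n + (u + (n - 1) * u')) + (n - 1) * v) := by omega
      rw [e]
      exact mod_a n v _ hn
  rw [cf_cg] at m1 m2
  rw [cf_cg, cf_cg]
  exact Helper96_MWV.tr (RR.symm x2) (Helper96_MWV.tr m1 (Helper96_MWV.tr (RR.symm x1)
    (Helper96_MWV.tr (RR.symm m2) x3)))

end Pool.Agent.MWGI.H61
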