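import Pool.Agent.Helper61_MWGI.Can
import Pool.Agent.MWGI.StmtsN
import Pool.Agent.Helper48_MWGI.Base
import Pool.Agent.Helper85_MWGI.J2A
import Pool.Agent.Helper4_MWGI.DZA
import Pool.Agent.Helper50_MWGI.WEX
import Pool.Agent.Helper48_MWGR.CompB
import Pool.Agent.Helper8_MWGR.ARD
import Pool.Agent.Helper36_MWGR.FRM

/-!
# Squad MWGI, row JDZ (MP_23468a_al): the edges `dz` are join prime

`xnp`: if `0^u 1 0^v` in block `i`, `1` in block `p` is related to a word with `0` in block `p`, then all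
`0^d` cross `1` (used for the edges `re` and `le` too).
-/

set_option autoImplicit false

namespace Pool.Agent.MWGI.H61

open Pool.Agent.Helper14_MV Pool.Agent.Helper2_MV Pool.Agent.MVO Pool.Agent.MWL Pool.Agent.MWS
  Pool.Agent.MWH Pool.Agent.MWGI

/-! ### degrees and counts -/

theorem deg2 {k i p : ℕ} (hi : i ≤ k) (hp : p ≤ k) (hip : i ≠ p) (a : ℕ → ℕ) :
    a i + a p ≤ deg k a := by
  unfold deg
  have h1 : ({i, p} : Finset ℕ) ⊆ Finset.range (k + 1) := by
    intro x hx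
    rw [Finset.mem_insert, Finset.mem_singleton] at hx
    rw [Finset.mem_range]
    rcases hx with rfl | rfl <;> omega
  have h2 := Finset.sum_le_sum_of_subset (f := a) h1
  rw [Finset.sum_pair hip] at h2
  exact h2

theorem c0 (s t : ℕ) : (X s ++ 1 :: X t).count 0 = s + t := by
  rw [List.count_append, List.count_cons_of_ne (by decide), List.count_replicate_self,
    List.count_replicate_self]

theorem c1 (s t : ℕ) : (X s ++ 1 :: X t).count 1 = 1 := by
  rw [List.count_append, List.count_cons_self, List.count_eq_zero.2, List.count_eq_zero.2]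
  · intro h
    exact absurd (List.eq_of_mem_replicate h) (by decide)
  · intro h
    exact absurd (List.eq_of_mem_replicate h) (by decide)

theorem x1 (s : ℕ) : (X s).count 1 = 0 := by
  rw [List.count_eq_zero]
  intro h
  exact absurd (List.eq_of_mem_replicate h) (by decide)

theorem tw (i : ℕ) (t : List ℕ) :
    ((X i ++ 1 :: t).takeWhile (fun c => decide (c = 0))).length = i := by
  induction i with
  | zero => simp
  | succ i ih =>
    have h : X (i + 1) ++ 1 :: t = 0 :: (X i ++ 1 :: t) := rfl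
    rw [h, List.takeWhile_cons_of_pos (by decide), List.length_cons, ih]

theorem cg_i (i p u v : ℕ) (c : ℕ → ℕ) (r s : ℕ) : cg i p u v c r s i = X u ++ 1 :: X v := by
  unfold cg
  rw [if_pos rfl]

theorem cg_p {i p : ℕ} (hip : i ≠ p) (u v : ℕ) (c : ℕ → ℕ) (r s : ℕ) :
    cg i p u v c r s p = X r ++ 1 :: X s := by
  unfold cg
  rw [if_neg (fun h => hip h.symm), if_pos rfl]

theorem cg_o {i p j : ℕ} (h1 : j ≠ i) (h2 : j ≠ p) (u v : ℕ) (c : ℕ → ℕ) (r s : ℕ) :
    cg i p u v c r s j = X (c j) := by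
  unfold cg
  rw [if_neg h1, if_neg h2]

/-- the family is admissible if it has two letters `0` in the blocks `i`, `p` -/
theorem okg {k i p u v : ℕ} {c : ℕ → ℕ} {r s : ℕ} (hi : i ≤ k) (hp : p ≤ k) (hip : i ≠ p)
    (h : 2 ≤ u + v + (r + s)) : OkB k (cg i p u v c r s) := by
  refine ⟨bo_cg k i p u v c r s, fun j _ a ha => ?_⟩
  have h1 := deg2 hi hp hip (ty (cg i p u v c r s) a)
  have h2 : ty (cg i p u v c r s) a i = (X u ++ 1 :: X v).count a := by
    unfold ty
    rw [cg_i]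
  have h3 : ty (cg i p u v c r s) a p = (X r ++ 1 :: X s).count a := by
    unfold ty
    rw [cg_p hip]
  rw [h2, h3] at h1
  rcases cg01 i p u v c r s j a ha with rfl | rfl
  · rw [c0, c0] at h1
    exact le_trans h h1
  · rw [c1, c1] at h1
    exact h1

theorem okf {k i p u v : ℕ} {c : ℕ → ℕ} (hi : i ≤ k) (hp : p ≤ k) (hip : i ≠ p)
    (h : 2 ≤ u + v) : OkB k (cf i p u v c) := okg (r := 0) (s := 0) hi hp hip h

/-! ### `0` in block `p` -/

/-- `0` and `1` commute in block `i` if `0` stands in block `p` -/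
theorem cmg {θ : FIC} (hc : Cm2 θ) {k i p : ℕ} (hi : i ≤ k) (hp : p ≤ k) (hip : i ≠ p)
    {r s : ℕ} (hrs : 1 ≤ r + s) (c : ℕ → ℕ) (u v : ℕ) :
    RR θ (asm k (cg i p (u + 1) v c r s)) (asm k (cg i p u (v + 1) c r s)) := by
  have e0 : X (u + 1) ++ 1 :: X v = X u ++ 0 :: 1 :: X v := by
    have e : X (u + 1) = X u ++ [0] := List.replicate_succ' ..
    rw [e, List.append_assoc]
    rfl
  have h0 : (0 : ℕ) ∈ X r ++ 1 :: X s := by
    rw [← List.count_pos_iff, c0]
    omega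
  have h1 : (1 : ℕ) ∈ X r ++ 1 :: X s := by
    rw [← List.count_pos_iff, c1]
    decide
  have h2 := hc k (cg i p (u + 1) v c r s) (okg hi hp hip (by omega)) i hi p hp
    (fun h => hip h.symm) (X u) (X v) 0 1 (by rw [cg_i, e0]) (by decide)
    (by rw [cg_p hip]; exact h0) (by rw [cg_p hip]; exact h1)
  have e1 : asm k (Function.update (cg i p (u + 1) v c r s) i (X u ++ 1 :: 0 :: X v)) =
      asm k (cg i p u (v + 1) c r s) := by
    apply asm_congr
    intro j _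
    by_cases hj : j = i
    · subst hj
      rw [Function.update_self, cg_i]
      rfl
    · rw [Function.update_of_ne hj]
      by_cases hj2 : j = p
      · subst hj2
        rw [cg_p hip, cg_p hip]
      · rw [cg_o hj hj2, cg_o hj hj2]
  rw [e1] at h2
  exact h2

theorem cmgd {θ : FIC} (hc : Cm2 θ) {k i p : ℕ} (hi : i ≤ k) (hp : p ≤ k) (hip : i ≠ p)
    {r s : ℕ} (hrs : 1 ≤ r + s) (c : ℕ → ℕ) (u d : ℕ) : ∀ v,
    RR θ (asm k (cg i p (u + d) v c r s)) (asm k (cg i p u (v + d) c r s)) := by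
  induction d with
  | zero => intro v; exact RR.refl _
  | succ d ih =>
    intro v
    have h1 := cmg hc hi hp hip hrs c (u + d) v
    have h2 := ih (v + 1)
    have e : v + 1 + d = v + (d + 1) := by omega
    rw [e] at h2
    exact Helper96_MWV.tr h1 h2

/-- **XNP** -/
theorem xnp {θ : FIC} {n : ℕ} (hB : BI n (RR θ)) {k i p u v u' v' r s : ℕ} {c c' : ℕ → ℕ}
    (hi : i ≤ k) (hp : p ≤ k) (hip : i ≠ p) (hrs : 1 ≤ r + s)
    (h : RR θ (asm k (cf i p u v c)) (asm k (cg i p u' v' c' r s))) (d : ℕ) :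
    Dz n k i p d Za (RR θ) := by
  have hn : 1 ≤ n := hB.pos
  unfold Dz Wz
  rw [wz_cf, wz_cf, cf_cg, cf_cg]
  have m1 := ins h (2 * n + (n - 1) * u + d) (2 * n + (n - 1) * v)
    (fun j => 2 * n + (n - 1) * c j)
  have m2 := ins h (2 * n + (n - 1) * u) (2 * n + (n - 1) * v + d)
    (fun j => 2 * n + (n - 1) * c j)
  have m3 := cmgd (H48.cm2 hB) hi hp hip hrs (fun j => c' j + (2 * n + (n - 1) * c j))
    (u' + (2 * n + (n - 1) * u)) d (v' + (2 * n + (n - 1) * v))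
  have e1 : u' + (2 * n + (n - 1) * u + d) = u' + (2 * n + (n - 1) * u) + d := by omega
  have e2 : v' + (2 * n + (n - 1) * v + d) = v' + (2 * n + (n - 1) * v) + d := by omega
  rw [e1, cf_cg] at m1
  rw [e2, cf_cg] at m2
  have x1 : RR θ (asm k (cg i p (u + (2 * n + (n - 1) * u + d)) (v + (2 * n + (n - 1) * v))
      (fun j => c j + (2 * n + (n - 1) * c j)) 0 0))
      (asm k (cg i p (2 * n + d) (2 * n) (fun _ => 2 * n) 0 0)) := by
    refine exc hB.per (by omega) (by omega) (by omega) (by omega) (fun j => by omega)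
      (fun j => by omega) ?_ (mod_a n v _ hn) (fun j => mod_a n (c j) _ hn)
    have e : u + (2 * n + (n - 1) * u + d) = u + ((2 * n + d) + (n - 1) * u) := by omega
    rw [e]
    exact mod_a n u _ hn
  have x2 : RR θ (asm k (cg i p (u + (2 * n + (n - 1) * u)) (v + (2 * n + (n - 1) * v + d))
      (fun j => c j + (2 * n + (n - 1) * c j)) 0 0))
      (asm k (cg i p (2 * n) (2 * n + d) (fun _ => 2 * n) 0 0)) := by
    refine exc hB.per (by omega) (by omega) (by omega) (by omega) (fun j => by omega)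
      (fun j => by omega) (mod_a n u _ hn) ?_ (fun j => mod_a n (c j) _ hn)
    have e : v + (2 * n + (n - 1) * v + d) = v + ((2 * n + d) + (n - 1) * v) := by omega
    rw [e]
    exact mod_a n v _ hn
  exact Helper96_MWV.tr (RR.symm x1) (Helper96_MWV.tr m1 (Helper96_MWV.tr m3
    (Helper96_MWV.tr (RR.symm m2) x2)))

/-! ### the row -/

/-- the types of light letters are kept (proof of helper85's `lky`) -/
theorem lky : ∀ (n : ℕ) (β θ : FIC), MWGR.BasG n β → β ≤ θ → NC2 θ →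
    ¬ Has n (FC.ofFIC θ) (Bit.J 2) → ∀ (k : ℕ) (B B' : ℕ → List ℕ), OkB k B → OkB k B' →
      RR θ (asm k B) (asm k B') → ∀ c, NS k c → ∀ u v, LL2 k (ty B c) u v →
        ∀ j ≤ k, ty B' c j = ty B c j := by
  intro n β θ hb hθ hn hJ k B B' hB hB' hr c hc u v hL j hj
  have hlr : LR n (FC.ofFIC θ) := MWGR.B.lrg n β θ hb hθ
  have hnd : ND (FC.ofFIC θ) := MWHP.Comp.c_MWA_Ndq β θ hb.cap hθ hn
  have h1 : L1 θ k (ty B c) (ty B' c) :=
    MWHP.Comp.c_MVO_One.1 θ k B B' c hc hB.ok hB'.ok hr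
  have hna : ¬ Ab n (FC.ofFIC θ) k (ty B c) j := fun ha =>
    hJ ((MWHP.Comp.c_MWHP_Lt2 n (FC.ofFIC θ) hlr k (ty B c) u v hL).1 ⟨j, hj, ha⟩)
  exact (MWHP.Comp.c_MWL_Key n (FC.ofFIC θ) hlr hnd k (ty B c) (ty B' c) h1 j hj hna).symm

/-- **JDZ**: the part `dz` of JPE -/
def JdzStmt : Prop :=
  ∀ (n : ℕ) (β : FIC), BI n (RR β) → ∀ k i p d, Good n (Ed.dz k i p d) →
    JPp β ((Ed.dz k i p d).l n, (Ed.dz k i p d).r n)

/-- the type of `1` in the family -/
theorem ty1 {k i p : ℕ} (hi : i ≤ k) (hp : p ≤ k) (hip : i ≠ p) {B : ℕ → List ℕ} {u v : ℕ}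
    {c : ℕ → ℕ} (hB : ∀ j ≤ k, B j = cf i p u v c j) :
    ∃ a b, LL2 k (ty B 1) a b ∧ ∀ j ≤ k, ty B 1 j = if j = i ∨ j = p then 1 else 0 := by
  have h1 : ty B 1 i = 1 := by
    show (B i).count 1 = 1
    rw [hB i hi, cf_cg, cg_i, c1]
  have h2 : ty B 1 p = 1 := by
    show (B p).count 1 = 1
    rw [hB p hp, cf_cg, cg_p hip, c1]
  have h3 : ∀ j ≤ k, j ≠ i → j ≠ p → ty B 1 j = 0 := by
    intro j hj h1 h2
    show (B j).count 1 = 0
    rw [hB j hj, cf_cg, cg_o h1 h2, x1]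
  have h4 : ∀ j ≤ k, ty B 1 j = if j = i ∨ j = p then 1 else 0 := by
    intro j hj
    by_cases h5 : j = i
    · rw [h5, h1, if_pos (Or.inl rfl)]
    · by_cases h6 : j = p
      · rw [h6, h2, if_pos (Or.inr rfl)]
      · rw [h3 j hj h5 h6, if_neg (fun h => h.elim h5 h6)]
  rcases Nat.lt_or_gt_of_ne hip with h | h
  · exact ⟨i, p, ⟨h, hp, h1, h2, h3⟩, h4⟩
  · exact ⟨p, i, ⟨h, hi, h2, h1, fun j hj a b => h3 j hj b a⟩, h4⟩

/-- blocks over `{0, 1}` with the type of `1` -/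
theorem shape {k i p : ℕ} (hi : i ≤ k) (hp : p ≤ k) (hip : i ≠ p) {B : ℕ → List ℕ}
    (h01 : ∀ j ≤ k, ∀ a ∈ B j, a = 0 ∨ a = 1)
    (h1 : ∀ j ≤ k, ty B 1 j = if j = i ∨ j = p then 1 else 0) :
    ∃ u v c r s, ∀ j ≤ k, B j = cg i p u v c r s j := by
  have e1 : (B i).count 1 = 1 := by
    have := h1 i hi
    rw [if_pos (Or.inl rfl)] at this
    exact this
  have e2 : (B p).count 1 = 1 := by
    have := h1 p hp
    rw [if_pos (Or.inr rfl)] at this
    exact this
  obtain ⟨u, v, hu, _⟩ := (MWGR.H36.frm.1 (B i) (h01 i hi)).1 e1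
  obtain ⟨r, s, hr, _⟩ := (MWGR.H36.frm.1 (B p) (h01 p hp)).1 e2
  refine ⟨u, v, fun j => (B j).count 0, r, s, ?_⟩
  intro j hj
  by_cases h2 : j = i
  · rw [h2, cg_i]
    exact hu
  · by_cases h3 : j = p
    · rw [h3, cg_p hip]
      exact hr
    · rw [cg_o h2 h3]
      refine (MWGR.H36.frm.1 (B j) (h01 j hj)).2.1 ?_
      have := h1 j hj
      rw [if_neg (fun h => h.elim h2 h3)] at this
      exact this

/-- the invariant set -/
def Iv (n k i p d M : ℕ) (B : ℕ → List ℕ) : Prop :=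
  ∃ u v c, (∀ j ≤ k, B j = cf i p u v c j) ∧ u ≡ 2 * n + d [MOD M]

/-- **JDZ**, no hypotheses -/
theorem jdz : JdzStmt := by
  have hD : DzaStmt := H4.dza H50.wex
  intro n β hβ k i p d hG
  obtain ⟨hi, hp, hip, q, e, hq, hdv⟩ := hG
  have hn : 1 ≤ n := hβ.pos
  have hbas := H48.basG hβ
  have el : (Ed.dz k i p d).l n = asm k (cf i p (2 * n + d) (2 * n) (fun _ => 2 * n)) := by
    show asm k (wz n i p Za (2 * n + d) (2 * n)) = _
    rw [wz_cf]
  have er : (Ed.dz k i p d).r n = asm k (cf i p (2 * n) (2 * n + d) (fun _ => 2 * n)) := by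
    show asm k (wz n i p Za (2 * n) (2 * n + d)) = _
    rw [wz_cf]
  by_cases hd : d = 0
  · subst hd
    intro ρ σ _ _ _ _ _
    refine Or.inl ?_
    show RR ρ ((Ed.dz k i p 0).l n) ((Ed.dz k i p 0).r n)
    rw [el, er]
    exact RR.refl _
  by_cases hall : ∀ θ : FIC, β ≤ θ → NC2 θ → Dz n k i p d Za (RR θ)
  · intro ρ σ h1 _ h3 _ _
    exact Or.inl (hall ρ h1 h3)
  push Not at hall
  obtain ⟨θ0, hθ0, -, hn0⟩ := hall
  obtain ⟨M, hMm, hMd⟩ := MWGR.H8.ard n d q e hn hd hq hdv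
  have grp : ∀ θ : FIC, β ≤ θ → ¬ Dz n k i p d Za (RR θ) →
      M ∣ n ∧ ∀ d', Dz n k i p d' Za (RR θ) → M ∣ d' := by
    intro θ hθ hnm
    obtain ⟨g, hgn, hg⟩ := (hD n k i p θ Za (H48.mono hθ hβ) hi hp hip).1
    have h1 : ¬ g ∣ d := fun h => hnm ((hg d).2 h)
    have h2 := hMd g hgn h1
    exact ⟨h2.trans hgn, fun d' hd' => h2.trans ((hg d').1 hd')⟩
  have hMn : M ∣ n := (grp θ0 hθ0 hn0).1
  rw [el, er]
  refine MWGR.B.jpig β hbas.cap k (cf i p (2 * n + d) (2 * n) (fun _ => 2 * n))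
    (cf i p (2 * n) (2 * n + d) (fun _ => 2 * n)) (Iv n k i p d M)
    (okf hi hp hip (by omega)) (okf hi hp hip (by omega))
    ⟨2 * n + d, 2 * n, fun _ => 2 * n, fun _ _ => rfl, Nat.ModEq.refl _⟩ ?_ ?_ ?_
  · rintro ⟨u, v, c, h1, h2⟩
    have h3 := h1 i hi
    rw [cf_cg, cf_cg, cg_i, cg_i] at h3
    have h4 := congrArg (fun l => (l.takeWhile (fun c => decide (c = 0))).length) h3
    rw [tw, tw] at h4
    apply hMm
    rw [← h4] at h2
    have h5 := (Nat.modEq_iff_dvd' (by omega : 2 * n ≤ 2 * n + d)).1 h2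
    rwa [Nat.add_sub_cancel_left] at h5
  · rintro B B' h ⟨u, v, c, h1, h2⟩
    exact ⟨u, v, c, fun j hj => by rw [← h j hj, h1 j hj], h2⟩
  · intro θ hθ hnc hne B B' hOB hOB' _ hS' hr hAB
    obtain ⟨u, v, c, hB, hu⟩ := hAB
    have hBθ : BI n (RR θ) := H48.mono hθ hβ
    have hnd : ¬ Dz n k i p d Za (RR θ) := by
      intro h
      apply hne
      unfold Dz Wz at h
      rw [wz_cf, wz_cf] at h
      exact h
    have hnJ : ¬ Has n (FC.ofFIC θ) (Bit.J 2) := by
      intro h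
      have h1 := H85.j2a hBθ h (Ed.dz k i p d) ⟨hi, hp, hip, q, e, hq, hdv⟩
      unfold EdIn at h1
      rw [el, er] at h1
      exact hne h1
    obtain ⟨a, b, hll, ht1⟩ := ty1 hi hp hip hB
    have ht' : ∀ j ≤ k, ty B' 1 j = if j = i ∨ j = p then 1 else 0 := by
      intro j hj
      rw [lky n β θ hbas hθ hnc hnJ k B B' hOB hOB' hr 1 (ns1 k) a b hll j hj, ht1 j hj]
    have h01 : ∀ j ≤ k, ∀ a ∈ B' j, a = 0 ∨ a = 1 := by
      intro j hj a ha
      obtain ⟨j', hj', ha'⟩ := hS' a ⟨j, hj, ha⟩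
      exact cg01 i p (2 * n + d) (2 * n) (fun _ => 2 * n) 0 0 j' a ha'
    obtain ⟨u', v', c', r, s, hB'⟩ := shape hi hp hip h01 ht'
    have hr2 : RR θ (asm k (cf i p u v c)) (asm k (cg i p u' v' c' r s)) := by
      rw [asm_congr hB, asm_congr hB'] at hr
      exact hr
    have hrs : r + s = 0 := by
      rcases Nat.eq_zero_or_pos (r + s) with h | h
      · exact h
      · exact absurd (xnp hBθ hi hp hip h hr2 d) hnd
    obtain ⟨rfl, rfl⟩ : r = 0 ∧ s = 0 := ⟨by omega, by omega⟩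
    have hlab := lab hn hBθ.per hip hr2
    have hdd : M ∣ u + (n - 1) * u' := (grp θ hθ hnd).2 _ hlab
    have hmod : u ≡ u' [MOD M] := by
      have g1 : u' + (u + (n - 1) * u') = u + n * u' := by
        obtain ⟨q, rfl⟩ : ∃ q, n = q + 1 := ⟨n - 1, by omega⟩
        rw [Nat.add_sub_cancel]
        ring
      have g2 : u' + (u + (n - 1) * u') ≡ u' + 0 [MOD M] :=
        Nat.ModEq.add_left u' ((Nat.modEq_zero_iff_dvd).2 hdd)
      have g3 : u + n * u' ≡ u + 0 [MOD M] :=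
        Nat.ModEq.add_left u ((Nat.modEq_zero_iff_dvd).2 (hMn.mul_right u'))
      rw [g1] at g2
      exact g3.symm.trans g2
    exact ⟨u', v', c', hB', hmod.symm.trans hu⟩

end Pool.Agent.MWGI.H61
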